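import Pool.Agent.Helper46.NU.Goals1

/-!
# MP_1fe1ca_lc, packet SIZ: the index sets exist
-/

open Cardinal Ordinal Order

noncomputable section

namespace NU.PkSIZ

/-- Functions from a set smaller than the cofinality are strictly bounded. -/
theorem bd {κ : Cardinal.{0}} (hκ : κ.IsRegular) {X : Type} (hX : #X < κ)
    (f : X → κ.ord.ToType) : ∃ a, ∀ i, f i < a := by
  have hcof : Order.cof κ.ord.ToType = κ := by
    rw [Ordinal.cof_toType]
    exact hκ.cof_ord
  have hn : ¬ IsCofinal (Set.range f) := by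
    intro h
    have h1 : Order.cof κ.ord.ToType ≤ #(Set.range f) := Order.cof_le h
    rw [hcof] at h1
    exact absurd (h1.trans mk_range_le) (not_le.2 hX)
  obtain ⟨a, ha⟩ := not_isCofinal_iff.1 hn
  exact ⟨a, fun i => ha _ ⟨i, rfl⟩⟩

/-- The cardinality of a product with `ℕ`. -/
theorem mk_prod_nat {X : Type} (h : ℵ₀ ≤ #X) : #(X × ℕ) = #X := by
  rw [Cardinal.mk_prod, Cardinal.lift_id, Cardinal.lift_id, Cardinal.mk_nat]
  exact Cardinal.mul_aleph0_eq h

/-- Sizes of successive alephs. -/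
theorem aleph_lt {a b : Ordinal.{0}} (h : a < b) : (ℵ_ a : Cardinal.{0}) < ℵ_ b :=
  Cardinal.aleph_lt_aleph.2 h

/-- The index sets exist. -/
theorem siz : G_SIZ := by
  have r2 : (ℵ_ 2 : Cardinal.{0}).IsRegular := by
    have := isRegular_aleph_add_one 1
    rwa [one_add_one_eq_two] at this
  have r3 : (ℵ_ 3 : Cardinal.{0}).IsRegular := by
    have := isRegular_aleph_add_one 2
    rwa [show (2 : Ordinal) + 1 = 3 by norm_num] at this
  have l12 : (ℵ_ 1 : Cardinal.{0}) < ℵ_ 2 := aleph_lt (by norm_num)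
  have l13 : (ℵ_ 1 : Cardinal.{0}) < ℵ_ 3 := aleph_lt (by norm_num)
  have l23 : (ℵ_ 2 : Cardinal.{0}) < ℵ_ 3 := aleph_lt (by norm_num)
  have l34 : (ℵ_ 3 : Cardinal.{0}) < ℵ_ 4 := aleph_lt (by norm_num)
  have l14 : (ℵ_ 1 : Cardinal.{0}) < ℵ_ 4 := aleph_lt (by norm_num)
  have m : ∀ c : Cardinal.{0}, #c.ord.ToType = c := fun c => mk_ord_toType c
  refine ⟨(ℵ_ 1 : Cardinal.{0}).ord.ToType, (ℵ_ 2 : Cardinal.{0}).ord.ToType,
    (ℵ_ 3 : Cardinal.{0}).ord.ToType, (ℵ_ 4 : Cardinal.{0}).ord.ToType,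
    inferInstance, inferInstance, inferInstance, ?_⟩
  refine
    { unc := ?_
      neA := ?_
      neB := ?_
      inj := ?_
      bdA := ?_
      bdB := ?_
      bdW := ?_
      bdD := ?_ }
  · rw [← Cardinal.aleph0_lt_mk_iff, m]
    simp
  · rw [← Cardinal.mk_ne_zero_iff, m]
    exact (Cardinal.aleph_pos _).ne'
  · rw [← Cardinal.mk_ne_zero_iff, m]
    exact (Cardinal.aleph_pos _).ne'
  · have h : #(ℵ_ 1 : Cardinal.{0}).ord.ToType ≤ #(ℵ_ 4 : Cardinal.{0}).ord.ToType := by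
      rw [m, m]
      exact l14.le
    obtain ⟨j⟩ := Cardinal.le_def _ _ |>.1 h
    exact ⟨j, j.injective⟩
  · intro f
    refine bd r2 ?_ f
    rw [mk_prod_nat (by rw [m]; exact Cardinal.aleph0_le_aleph _), m]
    exact l12
  · intro f
    refine bd r3 ?_ f
    rw [mk_prod_nat (by rw [m]; exact Cardinal.aleph0_le_aleph _), m]
    exact l23
  · intro f
    refine bd r3 ?_ f
    rw [mk_prod_nat (by rw [m]; exact Cardinal.aleph0_le_aleph _), m]
    exact l13
  · intro f
    by_contra hc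
    push Not at hc
    have hs : Function.Surjective f := fun d => by
      obtain ⟨i, hi⟩ := hc d
      exact ⟨i, hi⟩
    have h := Cardinal.mk_le_of_surjective hs
    have hAB : #((ℵ_ 2 : Cardinal.{0}).ord.ToType × (ℵ_ 3 : Cardinal.{0}).ord.ToType) = ℵ_ 3 := by
      rw [Cardinal.mk_prod, Cardinal.lift_id, Cardinal.lift_id, m, m, Cardinal.mul_eq_max
        (Cardinal.aleph0_le_aleph _) (Cardinal.aleph0_le_aleph _)]
      exact max_eq_right l23.le
    rw [mk_prod_nat (by rw [hAB]; exact Cardinal.aleph0_le_aleph _), hAB, m] at h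
    exact absurd h (not_le.2 l34)

end NU.PkSIZ
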